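import Mathlib
import Pool.Agent.Helper20.URG

namespace Pool.Agent.Results.MP_a7dadb_al.CommonInnerInverse

/-- There is a unit-regular ring `R` and an element `a` of `R` such that no single `w` in `R`
has the property that `w ^ k` is an inner inverse of `a ^ k` for every `k ≥ 1`. -/
theorem result :
    ∃ (R : Type) (_ : Ring R), (∀ x : R, ∃ u : Rˣ, x * u * x = x) ∧
      ∃ a : R, ∀ w : R, ∃ k : ℕ, 1 ≤ k ∧ a ^ k * w ^ k * a ^ k ≠ a ^ k :=
  Pool.Agent.Helper20.unit_regular_counterexample

end Pool.Agent.Results.MP_a7dadb_al.CommonInnerInverse
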